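import Mathlib
import Pool.Agent.R330.GL.Top

/-!
# The gcd recursion for Goldbach pairs: a lower bound for `g_N`

`g_N ≥ (log N / log log N)² / 2304` for all large `N`. At odd steps the gcd divides
`n + 2 (N - n - a_{n-1})`, which can be of the size of `N`, so that a priori only `g_N ≫ log N` is
clear. If `G`, `G'` are the gcds at two odd steps, then the gcds in between add up to at least
`G G' / (2 N)`; this forces a Farey tree of large gcds.
-/

set_option autoImplicit false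

namespace Pool.Agent.Results.MP_b5e119_nt.FareyLowerBound

open Filter Topology Pool.Agent.R330.GL

lemma des (N : ℕ) (hN : 3 ≤ N) (a : ℕ → ℤ) (ha1 : a 1 = (N : ℤ) - 2)
    (ha : ∀ n : ℕ, 2 ≤ n → a n = a (n - 1) -
        ((Int.gcd (a (n - 1)) ((N : ℤ) - (-1) ^ n * ((N : ℤ) - n)) : ℕ) : ℤ))
    (f : ℕ) (hf : IsLeast {n : ℕ | 2 ≤ n ∧ a n = 0} f) :
    Des N f a (fun n => ((Int.gcd (a (n - 1)) (V N n) : ℕ) : ℤ)) := by
  obtain ⟨⟨hf1, haf⟩, hmin⟩ := hf
  have hmin' : ∀ k, 1 ≤ k → k < f → a k ≠ 0 := by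
    intro k hk1 hk2 hk3
    rcases Nat.lt_or_ge k 2 with h | h
    · have : k = 1 := by omega
      subst this
      rw [ha1] at hk3
      omega
    · have := hmin ⟨h, hk3⟩
      omega
  have hnn : ∀ k, 1 ≤ k → k ≤ f → 0 ≤ a k := by
    intro k hk
    induction k, hk using Nat.le_induction with
    | base => intro _; rw [ha1]; omega
    | succ k hk ih =>
      intro hkf
      have h1 := ih (by omega)
      have hpos : 0 < a k := lt_of_le_of_ne h1 (Ne.symm (hmin' k hk (by omega)))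
      rw [ha (k + 1) (by omega), Nat.add_sub_cancel]
      have := Int.le_of_dvd hpos (Int.gcd_dvd_left (a := a k)
        (b := (N : ℤ) - (-1) ^ (k + 1) * ((N : ℤ) - ((k + 1 : ℕ) : ℤ))))
      linarith
  refine ⟨ha1, fun n hn _ => ha n hn, ?_, ?_, ?_, haf, hf1, hnn⟩
  · intro n hn hnf
    have h0 : a (n - 1) ≠ 0 := hmin' (n - 1) (by omega) (by omega)
    have := Int.gcd_pos_of_ne_zero_left (V N n) h0
    exact_mod_cast this
  · intro n _ _
    exact Int.gcd_dvd_left _ _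
  · intro n _ _
    exact Int.gcd_dvd_right _ _

lemma large : ∀ᶠ N : ℕ in atTop, (3 : ℝ) ≤ Real.log (Real.log N) ∧
    64 * (Real.log N) ^ 4 ≤ (N : ℝ) ∧ 16 * ((Real.log N) ^ 2 + 4) ≤ (N : ℝ) ∧
    24 ≤ Real.log N / Real.log (Real.log N) ∧ (1 : ℝ) ≤ Real.log N := by
  have hcast : Tendsto (fun N : ℕ => (N : ℝ)) atTop atTop := tendsto_natCast_atTop_atTop
  have hlog : Tendsto (fun N : ℕ => Real.log N) atTop atTop := Real.tendsto_log_atTop.comp hcast
  have hll : Tendsto (fun N : ℕ => Real.log (Real.log N)) atTop atTop :=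
    Real.tendsto_log_atTop.comp hlog
  have p4 : ∀ᶠ x : ℝ in atTop, 64 * (Real.log x) ^ 4 ≤ x := by
    have h1 := (Real.isLittleO_pow_log_id_atTop (n := 4)).def (show (0 : ℝ) < 1 / 64 by norm_num)
    filter_upwards [h1, eventually_ge_atTop (1 : ℝ)] with x hx hx1
    rw [Real.norm_eq_abs, Real.norm_eq_abs, id, abs_of_nonneg (by linarith : (0 : ℝ) ≤ x)] at hx
    have := (le_abs_self _).trans hx
    linarith
  have p2 : ∀ᶠ x : ℝ in atTop, 16 * ((Real.log x) ^ 2 + 4) ≤ x := by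
    have h1 := (Real.isLittleO_pow_log_id_atTop (n := 2)).def (show (0 : ℝ) < 1 / 32 by norm_num)
    filter_upwards [h1, eventually_ge_atTop (128 : ℝ)] with x hx hx1
    rw [Real.norm_eq_abs, Real.norm_eq_abs, id, abs_of_nonneg (by linarith : (0 : ℝ) ≤ x)] at hx
    have := (le_abs_self _).trans hx
    linarith
  have p1 : ∀ᶠ x : ℝ in atTop, 24 ≤ x / Real.log x := by
    have h1 := (Real.isLittleO_log_id_atTop).def (show (0 : ℝ) < 1 / 24 by norm_num)
    filter_upwards [h1, eventually_ge_atTop (3 : ℝ)] with x hx hx1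
    rw [Real.norm_eq_abs, Real.norm_eq_abs, id, abs_of_nonneg (by linarith : (0 : ℝ) ≤ x)] at hx
    have h2 := (le_abs_self _).trans hx
    have h3 : 0 < Real.log x := Real.log_pos (by linarith)
    rw [le_div_iff₀ h3]
    linarith
  filter_upwards [hll.eventually_ge_atTop 3, hcast.eventually p4, hcast.eventually p2,
    hlog.eventually p1, hlog.eventually_ge_atTop 1] with N h1 h2 h3 h4 h5
  exact ⟨h1, h2, h3, h4, h5⟩

/-- `g_N ≥ (log N / log log N)² / 2304` for all large `N` -/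
theorem result :
    ∃ N₀ : ℕ, ∀ N : ℕ, N₀ ≤ N → ∀ a : ℕ → ℤ, a 1 = (N : ℤ) - 2 →
      (∀ n : ℕ, 2 ≤ n → a n = a (n - 1) -
        ((Int.gcd (a (n - 1)) ((N : ℤ) - (-1) ^ n * ((N : ℤ) - n)) : ℕ) : ℤ)) →
      ∀ g : ℕ, IsLeast {n : ℕ | 2 ≤ n ∧ a n = 0} g →
        (Real.log N / Real.log (Real.log N)) ^ 2 / 2304 ≤ (g : ℝ) := by
  obtain ⟨N₁, hN₁⟩ := eventually_atTop.1 large
  refine ⟨max N₁ 3, fun N hN a ha1 ha g hg => ?_⟩
  have hN3 : 3 ≤ N := (le_max_right _ _).trans hN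
  obtain ⟨h1, h2, h3, h4, h5⟩ := hN₁ N ((le_max_left _ _).trans hN)
  have hd := des N hN3 a ha1 ha g hg
  set L : ℝ := Real.log N with hL
  set l : ℝ := Real.log L with hl
  have hl0 : 0 < l := by linarith
  have hL0 : 0 < L := by linarith
  by_contra hcon
  push Not at hcon
  have hgL : (g : ℝ) ≤ L ^ 2 := by
    have e1 : L / l ≤ L := div_le_self hL0.le (by linarith)
    have e2 : (L / l) ^ 2 ≤ L ^ 2 := pow_le_pow_left₀ (by positivity) e1 2
    have e3 : 0 ≤ (L / l) ^ 2 := by positivity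
    linarith
  have hg0 : (0 : ℝ) ≤ g := by positivity
  have hf1 : 64 * g ^ 2 ≤ N := by
    have : 64 * (g : ℝ) ^ 2 ≤ N := by
      have e1 : (g : ℝ) ^ 2 ≤ (L ^ 2) ^ 2 := pow_le_pow_left₀ hg0 hgL 2
      have e2 : (L ^ 2) ^ 2 = L ^ 4 := by ring
      rw [e2] at e1
      linarith
    exact_mod_cast this
  have hf2 : 16 * (g + 4) ≤ N := by
    have : 16 * ((g : ℝ) + 4) ≤ N := by linarith
    exact_mod_cast this
  set K : ℕ := ⌊L / (6 * l)⌋₊ with hK
  have hx4 : 4 ≤ L / (6 * l) := by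
    have e : L / (6 * l) = (L / l) / 6 := by field_simp
    rw [e]
    linarith
  have hK1 : L / (6 * l) < K + 1 := Nat.lt_floor_add_one _
  have hK2 : (K : ℝ) ≤ L / (6 * l) := Nat.floor_le (by positivity)
  set M : ℕ := K / 2 with hM
  have hM2 : 2 * M ≤ K := Nat.mul_div_le K 2
  have hM3 : K ≤ 2 * M + 1 := by omega
  have hM3' : (K : ℝ) ≤ 2 * M + 1 := by exact_mod_cast hM3
  have hMlow : L / l / 24 ≤ (M : ℝ) := by
    have e : L / (6 * l) = (L / l) / 6 := by field_simp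
    rw [e] at hK1
    linarith
  have hM1 : 1 ≤ M := by
    have : (1 : ℝ) ≤ M := by linarith
    exact_mod_cast this
  have hge := hd.ge
  have hg1 : (1 : ℝ) ≤ g := by exact_mod_cast (by omega : 1 ≤ g)
  have hpow : ((64 : ℤ) * g ^ 2) ^ K ≤ 2 * N := by
    have hb0 : (0 : ℝ) < 64 * (g : ℝ) ^ 2 := by positivity
    have hlogb : Real.log (64 * (g : ℝ) ^ 2) ≤ 6 * l := by
      have e1 : Real.log (64 * (g : ℝ) ^ 2) ≤ Real.log (64 * L ^ 4) := by
        apply Real.log_le_log hb0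
        have e1 : (g : ℝ) ^ 2 ≤ (L ^ 2) ^ 2 := pow_le_pow_left₀ hg0 hgL 2
        have e2 : (L ^ 2) ^ 2 = L ^ 4 := by ring
        rw [e2] at e1
        linarith
      have e2 : Real.log (64 * L ^ 4) = Real.log 64 + 4 * l := by
        rw [Real.log_mul (by norm_num) (by positivity), Real.log_pow]
        push_cast
        ring
      have e3 : Real.log 64 ≤ 6 := by
        have : (64 : ℝ) = 2 ^ 6 := by norm_num
        rw [this, Real.log_pow]
        have := Real.log_two_lt_d9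
        push_cast
        linarith
      linarith
    have hlogK : (K : ℝ) * Real.log (64 * (g : ℝ) ^ 2) ≤ L := by
      have hb1 : 0 ≤ Real.log (64 * (g : ℝ) ^ 2) := Real.log_nonneg (by nlinarith)
      calc (K : ℝ) * Real.log (64 * (g : ℝ) ^ 2) ≤ L / (6 * l) * (6 * l) :=
            mul_le_mul hK2 hlogb hb1 (by positivity)
        _ = L := by field_simp
    have hN0 : (0 : ℝ) < N := by exact_mod_cast (by omega : 0 < N)
    have hreal : (64 * (g : ℝ) ^ 2) ^ K ≤ N := by
      rw [← Real.log_le_log_iff (by positivity) hN0, Real.log_pow]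
      exact hlogK
    have hreal2 : (64 * (g : ℝ) ^ 2) ^ K ≤ 2 * N := by linarith
    exact_mod_cast hreal2
  have hfin := hd.finite hf1 hf2 K M hM1 hM2 hpow
  have hsq : (L / l / 24) ^ 2 ≤ (M : ℝ) ^ 2 := pow_le_pow_left₀ (by positivity) hMlow 2
  have e : (L / l / 24) ^ 2 = (L / l) ^ 2 / 576 := by ring
  rw [e] at hsq
  linarith

end Pool.Agent.Results.MP_b5e119_nt.FareyLowerBound
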