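import Pool.Agent.R754.QL.B

/-!
# MP_b5e119_nt: the lower bound `g_N ≥ c (log N / log log N) ^ 2`
-/

set_option autoImplicit false

namespace Pool.Agent.Results.MP_b5e119_nt.QuadraticLog

open R754.QL Filter

/-- For all large `N`, the least index `g ≥ 2` with `a_g = 0` satisfies
`g ≥ (log N / log log N) ^ 2 / 10000`. -/
theorem result : ∃ N₀ : ℕ, ∀ N : ℕ, N₀ ≤ N → ∀ a : ℕ → ℤ, a 1 = (N : ℤ) - 2 →
    (∀ n : ℕ, 2 ≤ n → a n = a (n - 1) -
      ((Int.gcd (a (n - 1)) ((N : ℤ) - (-1) ^ n * ((N : ℤ) - n)) : ℕ) : ℤ)) →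
    ∀ g : ℕ, IsLeast {n : ℕ | 2 ≤ n ∧ a n = 0} g →
      (Real.log N / Real.log (Real.log N)) ^ 2 / 10000 ≤ (g : ℝ) := by
  have hlim : Tendsto (fun N : ℕ => Real.log N) atTop atTop :=
    Real.tendsto_log_atTop.comp tendsto_natCast_atTop_atTop
  have hlog : ∀ᶠ l : ℝ in atTop, Real.log l ≤ (1 / 48) * l := by
    have := Real.isLittleO_log_id_atTop.bound (show (0 : ℝ) < 1 / 48 by norm_num)
    filter_upwards [this, eventually_ge_atTop 1] with l h1 h2
    simp only [id, Real.norm_eq_abs] at h1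
    rw [abs_of_nonneg (by linarith : (0 : ℝ) ≤ l)] at h1
    exact (le_abs_self _).trans h1
  have hev : ∀ᶠ N : ℕ in atTop, Real.log (Real.log N) ≤ (1 / 48) * Real.log N ∧
      16 ≤ Real.log N ∧ 5 ≤ N :=
    (hlim.eventually hlog).and ((hlim.eventually_ge_atTop 16).and (eventually_ge_atTop 5))
  obtain ⟨N₀, hN₀⟩ := eventually_atTop.mp hev
  refine ⟨N₀, fun N hN a ha1 ha G hG => ?_⟩
  obtain ⟨c1, c2, c3⟩ := hN₀ N hN
  have hpos : ∀ n, 1 ≤ n → n < G → 0 < a n := by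
    intro n hn
    induction n, hn using Nat.le_induction with
    | base =>
      intro _
      rw [ha1]
      have : (5 : ℤ) ≤ N := by exact_mod_cast c3
      linarith
    | succ n hn ih =>
      intro hlt
      have h1 := ih (by omega)
      have h2 : 0 ≤ a (n + 1) := by
        rw [ha (n + 1) (by omega), Nat.add_sub_cancel]
        have := Int.le_of_dvd h1 (Int.gcd_dvd_left (a := a n)
          (b := (N : ℤ) - (-1) ^ (n + 1) * ((N : ℤ) - ((n + 1 : ℕ) : ℤ))))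
        linarith
      have h3 : a (n + 1) ≠ 0 := fun h => by
        have := hG.2 ⟨by omega, h⟩
        omega
      omega
  have hD : Desc N G a := ⟨ha1, ha, hpos, hG.1.2⟩
  have hG2 : 2 ≤ G := hG.1.1
  have hNG : G ≤ N := by
    have := drop_ge hD le_rfl (G - 1) (by omega)
    rw [show 1 + (G - 1) = G by omega, ha1, hG.1.2] at this
    omega
  by_contra hcon
  push Not at hcon
  obtain ⟨l, hl⟩ : ∃ l, l = Real.log N := ⟨_, rfl⟩
  obtain ⟨L, hL⟩ : ∃ L, L = Real.log l := ⟨_, rfl⟩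
  rw [← hl] at c1 c2 hcon
  rw [← hL] at c1 hcon
  have hL1 : 1 ≤ L := by
    rw [hL, Real.le_log_iff_exp_le (by linarith)]
    have := Real.exp_one_lt_d9
    linarith
  obtain ⟨r, hr⟩ : ∃ r, r = l / L := ⟨_, rfl⟩
  rw [← hr] at hcon
  have hr48 : 48 ≤ r := by
    rw [hr, le_div_iff₀ (by linarith)]
    linarith
  have hrl : r ≤ l := by
    rw [hr]
    exact div_le_self (by linarith) hL1
  have hGr : (G : ℝ) < r ^ 2 / 10000 := hcon
  have hG2' : (2 : ℝ) ≤ G := by exact_mod_cast hG2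
  have hGl : (G : ℝ) ≤ l ^ 2 := by
    have : r ^ 2 ≤ l ^ 2 := pow_le_pow_left₀ (by linarith) hrl 2
    have h0 : 0 ≤ r ^ 2 := by positivity
    linarith
  have hlogG : Real.log G ≤ 2 * L := by
    have h1 := Real.log_le_log (by linarith) hGl
    rw [Real.log_pow] at h1
    rw [hL]
    exact_mod_cast h1
  obtain ⟨K, hKdef⟩ : ∃ K, K = ⌊r / 8⌋₊ := ⟨_, rfl⟩
  have hK1 : (K : ℝ) ≤ r / 8 := by rw [hKdef]; exact Nat.floor_le (by linarith)
  have hK3 : r / 8 < K + 1 := by rw [hKdef]; exact Nat.lt_floor_add_one _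
  have hK2 : 2 ≤ K := by
    have : (4 : ℝ) < K := by linarith
    have : 4 < K := by exact_mod_cast this
    omega
  have hN0 : (0 : ℝ) < N := by exact_mod_cast (by omega : 0 < N)
  have hpow : (G : ℝ) ^ (4 * K) ≤ N := by
    rw [← Real.log_le_log_iff (by positivity) hN0, Real.log_pow, ← hl]
    push_cast
    have h1 : (4 * (K : ℝ)) * Real.log G ≤ (4 * K) * (2 * L) :=
      mul_le_mul_of_nonneg_left hlogG (by positivity)
    have h2 : (4 * (K : ℝ)) * (2 * L) ≤ r * L := by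
      have : 4 * (K : ℝ) * (2 * L) = (8 * K) * L := by ring
      rw [this]
      exact mul_le_mul_of_nonneg_right (by linarith) (by linarith)
    have h3 : r * L = l := by rw [hr]; field_simp
    linarith
  have hK : (G : ℤ) * (3 * (G : ℤ) ^ 2) ^ (K - 1) ≤ N := by
    have h1 : G ^ (4 * K) ≤ N := by exact_mod_cast hpow
    have h2 : G * (3 * G ^ 2) ^ (K - 1) ≤ G ^ (4 * K) := by
      have e1 : 3 * G ^ 2 ≤ G ^ 4 := by
        have : 3 ≤ G ^ 2 := by nlinarith
        calc 3 * G ^ 2 ≤ G ^ 2 * G ^ 2 := Nat.mul_le_mul_right _ this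
          _ = G ^ 4 := by ring
      have e2 : G ≤ G ^ 4 := Nat.le_self_pow (by norm_num) G
      calc G * (3 * G ^ 2) ^ (K - 1) ≤ G ^ 4 * (G ^ 4) ^ (K - 1) :=
            Nat.mul_le_mul e2 (Nat.pow_le_pow_left e1 _)
        _ = (G ^ 4) ^ (K - 1 + 1) := by rw [pow_succ (G ^ 4) (K - 1), mul_comm]
        _ = G ^ (4 * K) := by rw [Nat.sub_add_cancel (by omega), ← pow_mul]
    exact_mod_cast h2.trans h1
  have hmain := main hD hG2 hNG (by omega) K hK2 hK
  have hx : r / 48 ≤ ((K / 3 : ℕ) : ℝ) := by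
    have h1 : K ≤ 3 * (K / 3) + 2 := by omega
    have h2 : (K : ℝ) ≤ 3 * ((K / 3 : ℕ) : ℝ) + 2 := by exact_mod_cast h1
    linarith
  have hx2 : (r / 48) ^ 2 ≤ ((K / 3 : ℕ) : ℝ) ^ 2 := pow_le_pow_left₀ (by positivity) hx 2
  have hx3 : (r / 48) ^ 2 / 4 = r ^ 2 / 9216 := by ring
  have hr2 : 0 < r ^ 2 := by positivity
  linarith

end Pool.Agent.Results.MP_b5e119_nt.QuadraticLog
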