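import Mathlib
import Pool.Agent.R105.GD.Gol
import Pool.Agent.R105.GD.Large

/-!
# The gcd recursion for Goldbach pairs: many `N` with `N - g_N` of the order of `√N`

`a N` is the recursion `a_1, a_2, …` of the problem for the parameter `N` and `g N = g_N` its least
zero `n ≥ 2`. If `N` is composite with least prime factor `q` then the first gcd which is not `1` is
the one at the index `q`, and it is a multiple of `q`; so `N - g_N ≥ q`. We count the products of
two primes of nearly the same size.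
-/

set_option autoImplicit false

namespace Pool.Agent.Results.MP_b5e119_nt.SquareRootDefects

open Finset Filter Topology

/-- the recursion of the problem: `a_1 = N - 2`, and
`a_n = a_{n-1} - gcd(a_{n-1}, N - (-1)^n (N - n))` for `n ≥ 2` (and `a_0 = 0`, not used) -/
noncomputable def a (N : ℕ) : ℕ → ℤ
  | 0 => 0
  | 1 => (N : ℤ) - 2
  | (n + 2) => a N (n + 1) - ((Int.gcd (a N (n + 1))
      ((N : ℤ) - (-1) ^ (n + 2) * ((N : ℤ) - ((n + 2 : ℕ) : ℤ))) : ℕ) : ℤ)

/-- `g_N`: the least `n ≥ 2` with `a_n = 0` -/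
noncomputable def g (N : ℕ) : ℕ := sInf {n : ℕ | 2 ≤ n ∧ a N n = 0}

lemma a_eq (N n : ℕ) : a N n = Pool.Agent.R105.GD.Gol.aa N n := by
  induction n using Nat.strong_induction_on with
  | _ n ih =>
    match n with
    | 0 => rw [a, Pool.Agent.R105.GD.Gol.aa]
    | 1 => rw [a, Pool.Agent.R105.GD.Gol.aa]
    | n + 2 => rw [a, Pool.Agent.R105.GD.Gol.aa, ih (n + 1) (by omega)]

lemma g_eq (N : ℕ) : g N = Pool.Agent.R105.GD.Gol.gg N := by
  unfold g Pool.Agent.R105.GD.Gol.gg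
  simp only [a_eq]

/-- products of a prime of `(z, 8 z]` and a prime of `(8 z, 64 z]` -/
lemma many_products (z X : ℕ) (hz : 2 ≤ z) (hX : 512 * z ^ 2 ≤ X) :
    (((Ioc z (8 * z)).filter Nat.Prime).card * ((Ioc (8 * z) (8 * (8 * z))).filter Nat.Prime).card) ≤
      ((Icc 3 X).filter (fun N : ℕ => g N + z ≤ N)).card := by
  rw [← card_product]
  apply card_le_card_of_injOn (fun q => q.1 * q.2)
  · rintro ⟨q, r⟩ hqr
    have h1 := Finset.mem_coe.1 hqr
    rw [mem_product, mem_filter, mem_filter, mem_Ioc, mem_Ioc] at h1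
    obtain ⟨⟨⟨hq1, hq2⟩, hqp⟩, ⟨hr1, hr2⟩, hrp⟩ := h1
    simp only at hq1 hq2 hqp hr1 hr2 hrp
    rw [Finset.mem_coe, mem_filter, mem_Icc]
    simp only
    have h2 : q * r ≤ 8 * z * (8 * (8 * z)) := Nat.mul_le_mul hq2 hr2
    have h3 : 8 * z * (8 * (8 * z)) = 512 * z ^ 2 := by ring
    have h4 : 3 * 1 ≤ q * r := Nat.mul_le_mul (by omega) (by omega)
    have hN3 : 3 ≤ q * r := by omega
    have hcomp : ¬ (q * r).Prime := Nat.not_prime_mul hqp.ne_one hrp.ne_one
    have h5 := Pool.Agent.R105.GD.Gol.defect_comp (q * r) hN3 hcomp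
    rw [← g_eq] at h5
    have h6 : z ≤ (q * r).minFac := by
      have hp := Nat.minFac_prime (show q * r ≠ 1 by omega)
      rcases (hp.dvd_mul).1 (Nat.minFac_dvd (q * r)) with h | h
      · have := (Nat.prime_dvd_prime_iff_eq hp hqp).1 h
        omega
      · have := (Nat.prime_dvd_prime_iff_eq hp hrp).1 h
        omega
    exact ⟨⟨hN3, by omega⟩, by omega⟩
  · rintro ⟨q, r⟩ hqr ⟨q', r'⟩ hqr' heq
    have h1 := Finset.mem_coe.1 hqr
    have h1' := Finset.mem_coe.1 hqr'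
    rw [mem_product, mem_filter, mem_filter, mem_Ioc, mem_Ioc] at h1 h1'
    obtain ⟨⟨⟨hq1, hq2⟩, hqp⟩, ⟨hr1, hr2⟩, hrp⟩ := h1
    obtain ⟨⟨⟨hq1', hq2'⟩, hqp'⟩, ⟨hr1', hr2'⟩, hrp'⟩ := h1'
    simp only at hq1 hq2 hqp hr1 hr2 hrp hq1' hq2' hqp' hr1' hr2' hrp' heq
    have hdvd : q ∣ q' * r' := by rw [← heq]; exact Dvd.intro _ rfl
    have hqq : q = q' := by
      rcases (hqp.dvd_mul).1 hdvd with h | h
      · exact (Nat.prime_dvd_prime_iff_eq hqp hqp').1 h
      · have := (Nat.prime_dvd_prime_iff_eq hqp hrp').1 h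
        omega
    subst hqq
    have := Nat.eq_of_mul_eq_mul_left hqp.pos heq
    rw [this]

/-- (1) For every composite `N` one has `N - g_N ≥ q`, the least prime factor of `N`; so
`N - g_N ≥ √N` for the squares of primes. (2) There is `c > 0` such that for all large `X` at least
`c X / (log X)^2` of the `N ≤ X` satisfy `N - g_N ≥ c √X`, and the sum of `N - g_N` over
`3 ≤ N ≤ X` is at least `c X √X / (log X)^2`. -/
theorem result : (∀ N : ℕ, 3 ≤ N → ¬ N.Prime → g N + N.minFac ≤ N) ∧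
    ∃ c : ℝ, 0 < c ∧ ∀ᶠ X : ℕ in atTop,
      c * X / Real.log X ^ 2 ≤
        (((Icc 3 X).filter (fun N : ℕ => c * √(X : ℝ) ≤ (N : ℝ) - g N)).card : ℝ) ∧
      c * (X * √(X : ℝ)) / Real.log X ^ 2 ≤ ∑ N ∈ Icc 3 X, ((N : ℝ) - g N) := by
  refine ⟨fun N hN hc => by rw [g_eq]; exact Pool.Agent.R105.GD.Gol.defect_comp N hN hc, ?_⟩
  obtain ⟨z0, hz0⟩ := Pool.Agent.R105.GD.primes_ge
  -- z = floor (sqrt X / 23)
  have hs : Tendsto (fun X : ℕ => √(X : ℝ)) atTop atTop :=
    Real.tendsto_sqrt_atTop.comp tendsto_natCast_atTop_atTop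
  refine ⟨1 / 100000, by norm_num, ?_⟩
  filter_upwards [hs.eventually_ge_atTop (46 * (z0 + 3) + 100), eventually_ge_atTop 10] with X hX hX10
  set s := √(X : ℝ) with hsd
  have hz00 : (0 : ℝ) ≤ z0 := Nat.cast_nonneg z0
  have hss : s * s = X := Real.mul_self_sqrt (Nat.cast_nonneg X)
  have hs100 : 100 ≤ s := by linarith
  set z := ⌊s / 23⌋₊ with hz
  have hz1 : (z : ℝ) ≤ s / 23 := Nat.floor_le (by positivity)
  have hz2 : s / 46 ≤ z := by
    have := Nat.lt_floor_add_one (s / 23)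
    rw [← hz] at this
    linarith
  have hz3 : z0 + 3 ≤ z := by
    apply Nat.le_floor
    push_cast
    linarith
  have hXR : (10 : ℝ) ≤ X := by exact_mod_cast hX10
  have h512 : 512 * z ^ 2 ≤ X := by
    have h1 : (512 : ℝ) * (z : ℝ) ^ 2 ≤ X := by
      have h2 : (z : ℝ) ^ 2 ≤ (s / 23) ^ 2 := pow_le_pow_left₀ (Nat.cast_nonneg z) hz1 2
      have h3 : (s / 23) ^ 2 = X / 529 := by rw [← hss]; ring
      rw [h3] at h2
      linarith
    exact_mod_cast h1
  have hmany := many_products z X (by omega) h512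
  have hQ1 := hz0 z (by omega)
  have hQ2 := hz0 (8 * z) (by omega)
  set Q1 : ℝ := (((Ioc z (8 * z)).filter Nat.Prime).card : ℝ) with hQ1d
  set Q2 : ℝ := (((Ioc (8 * z) (8 * (8 * z))).filter Nat.Prime).card : ℝ) with hQ2d
  have hQ10 : 0 ≤ Q1 := Nat.cast_nonneg _
  have hQ20 : 0 ≤ Q2 := Nat.cast_nonneg _
  have hL : 0 < Real.log X := Real.log_pos (by linarith)
  have hzpos : (1 : ℝ) ≤ z := by
    have : 1 ≤ z := by omega
    exact_mod_cast this
  have hlog1 : Real.log (8 * z) ≤ Real.log X := by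
    apply Real.log_le_log (by positivity)
    rw [← hss]
    nlinarith
  have hlog2 : Real.log (8 * ((8 * z : ℕ) : ℝ)) ≤ Real.log X := by
    apply Real.log_le_log (by push_cast; positivity)
    rw [← hss]
    push_cast
    nlinarith
  have h1 : (z : ℝ) ≤ Q1 * Real.log X := hQ1.trans (mul_le_mul_of_nonneg_left hlog1 hQ10)
  have h2 : 8 * (z : ℝ) ≤ Q2 * Real.log X := by
    have := hQ2.trans (mul_le_mul_of_nonneg_left hlog2 hQ20)
    push_cast at this
    exact this
  have h3 : 8 * (z : ℝ) ^ 2 ≤ Q1 * Q2 * Real.log X ^ 2 := by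
    have := mul_le_mul h1 h2 (by positivity) (by positivity)
    nlinarith
  set T := ((Icc 3 X).filter (fun N : ℕ => g N + z ≤ N)).card with hT
  have h4 : Q1 * Q2 ≤ (T : ℝ) := by
    rw [hQ1d, hQ2d]
    exact_mod_cast hmany
  have hL2 : 0 < Real.log X ^ 2 := by positivity
  have h5 : 8 * (z : ℝ) ^ 2 / Real.log X ^ 2 ≤ T := by
    rw [div_le_iff₀ hL2]
    exact h3.trans (mul_le_mul_of_nonneg_right h4 hL2.le)
  have hzX : (X : ℝ) / 2116 ≤ (z : ℝ) ^ 2 := by
    have h6 : (s / 46) ^ 2 ≤ (z : ℝ) ^ 2 := pow_le_pow_left₀ (by positivity) hz2 2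
    have h7 : (s / 46) ^ 2 = X / 2116 := by rw [← hss]; ring
    rw [h7] at h6
    exact h6
  have h8 : (X : ℝ) / 265 / Real.log X ^ 2 ≤ T := by
    refine le_trans ?_ h5
    apply div_le_div_of_nonneg_right _ hL2.le
    linarith
  constructor
  · have h9 : T ≤ ((Icc 3 X).filter (fun N : ℕ => 1 / 100000 * s ≤ (N : ℝ) - g N)).card := by
      apply card_le_card
      intro N hN
      rw [mem_filter] at hN ⊢
      refine ⟨hN.1, ?_⟩
      have h10 : ((g N + z : ℕ) : ℝ) ≤ (N : ℝ) := by exact_mod_cast hN.2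
      push_cast at h10
      linarith
    have h11 : (T : ℝ) ≤ (((Icc 3 X).filter (fun N : ℕ => 1 / 100000 * s ≤ (N : ℝ) - g N)).card : ℝ) := by
      exact_mod_cast h9
    refine le_trans ?_ h11
    refine le_trans ?_ h8
    apply div_le_div_of_nonneg_right _ hL2.le
    linarith
  · have h9 : ∑ N ∈ (Icc 3 X).filter (fun N : ℕ => g N + z ≤ N), ((N : ℝ) - g N) ≤
        ∑ N ∈ Icc 3 X, ((N : ℝ) - g N) := by
      apply sum_le_sum_of_subset_of_nonneg (filter_subset _ _)
      intro N hN _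
      rw [mem_Icc] at hN
      have := Pool.Agent.R105.GD.Gol.gg_le N hN.1
      rw [← g_eq] at this
      have h10 : ((g N + 1 : ℕ) : ℝ) ≤ (N : ℝ) := by exact_mod_cast this
      push_cast at h10
      linarith
    refine le_trans ?_ h9
    have h10 : (T : ℝ) * z ≤ ∑ N ∈ (Icc 3 X).filter (fun N : ℕ => g N + z ≤ N), ((N : ℝ) - g N) := by
      rw [hT, ← nsmul_eq_mul]
      apply card_nsmul_le_sum
      intro N hN
      rw [mem_filter] at hN
      have h11 : ((g N + z : ℕ) : ℝ) ≤ (N : ℝ) := by exact_mod_cast hN.2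
      push_cast at h11
      linarith
    refine le_trans ?_ h10
    have h11 : (X : ℝ) / 265 / Real.log X ^ 2 * (s / 46) ≤ (T : ℝ) * z :=
      mul_le_mul h8 hz2 (by positivity) (Nat.cast_nonneg T)
    refine le_trans ?_ h11
    have e : (X : ℝ) / 265 / Real.log X ^ 2 * (s / 46) = (X * s) / 12190 / Real.log X ^ 2 := by ring
    rw [e]
    apply div_le_div_of_nonneg_right _ hL2.le
    have : 0 ≤ (X : ℝ) * s := by positivity
    linarith

end Pool.Agent.Results.MP_b5e119_nt.SquareRootDefects
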