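import Mathlib
import Pool.Agent.R105.GD.Gol
import Pool.Agent.R105.GD.Pairs

/-!
# The gcd recursion for Goldbach pairs: the typical size of `N - g_N`

`a N` is the recursion `a_1, a_2, …` of the problem for the parameter `N` and `g N = g_N` its least
zero `n ≥ 2`. By the starting result `LongDescent`, `g_N + 1` and `2 N - g_N - 1` are both prime as
soon as `N ≥ 2208` and `g_N ≥ 7 N / 9`. So `N - g_N = h` forces `N - h + 1` and `N + h - 1` to be
prime, and an upper bound sieve, together with an average of the singular series over `h`, shows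
that at most `C H X / (log X)^2` of the `N ≤ X` have `2 ≤ N - g_N ≤ H`.
-/

set_option autoImplicit false

namespace Pool.Agent.Results.MP_b5e119_nt.TypicalDefect

open Finset Filter Topology

/-- the recursion of the problem: `a_1 = N - 2`, and
`a_n = a_{n-1} - gcd(a_{n-1}, N - (-1)^n (N - n))` for `n ≥ 2` (and `a_0 = 0`, not used) -/
noncomputable def a (N : ℕ) : ℕ → ℤ
  | 0 => 0
  | 1 => (N : ℤ) - 2
  | (n + 2) => a N (n + 1) - ((Int.gcd (a N (n + 1))
      ((N : ℤ) - (-1) ^ (n + 2) * ((N : ℤ) - ((n + 2 : ℕ) : ℤ))) : ℕ) : ℤ)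

/-- `g_N`: the least `n ≥ 2` with `a_n = 0` -/
noncomputable def g (N : ℕ) : ℕ := sInf {n : ℕ | 2 ≤ n ∧ a N n = 0}

lemma a_eq (N n : ℕ) : a N n = Pool.Agent.R105.GD.Gol.aa N n := by
  induction n using Nat.strong_induction_on with
  | _ n ih =>
    match n with
    | 0 => rw [a, Pool.Agent.R105.GD.Gol.aa]
    | 1 => rw [a, Pool.Agent.R105.GD.Gol.aa]
    | n + 2 => rw [a, Pool.Agent.R105.GD.Gol.aa, ih (n + 1) (by omega)]

lemma g_eq (N : ℕ) : g N = Pool.Agent.R105.GD.Gol.gg N := by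
  unfold g Pool.Agent.R105.GD.Gol.gg
  simp only [a_eq]

lemma small_bound : ∃ c : ℝ, 0 < c ∧ ∀ X : ℕ, 2 ≤ X → c ≤ X / Real.log X ^ 2 := by
  refine ⟨1 / 4, by norm_num, fun X hX => ?_⟩
  have hX' : (2 : ℝ) ≤ X := by exact_mod_cast hX
  have hl : 0 < Real.log X := Real.log_pos (by linarith)
  rw [div_le_div_iff₀ (by norm_num) (by positivity), one_mul]
  have h1 : Real.log X ≤ 2 * (X : ℝ) ^ (1 / 2 : ℝ) := by
    have h2 := Real.log_le_rpow_div (x := (X : ℝ)) (by linarith) (ε := 1 / 2) (by norm_num)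
    have e : (X : ℝ) ^ (1 / 2 : ℝ) / (1 / 2) = 2 * (X : ℝ) ^ (1 / 2 : ℝ) := by ring
    rw [e] at h2
    exact h2
  calc Real.log X ^ 2 ≤ (2 * (X : ℝ) ^ (1 / 2 : ℝ)) ^ 2 := pow_le_pow_left₀ hl.le h1 2
    _ = 4 * ((X : ℝ) ^ (1 / 2 : ℝ)) ^ 2 := by ring
    _ = 4 * (X : ℝ) := by
      rw [← Real.rpow_natCast, ← Real.rpow_mul (by linarith)]
      norm_num
    _ = (X : ℝ) * 4 := by ring

open Classical in
theorem count_le : ∃ C : ℝ, 0 < C ∧ ∀ X H : ℕ, 2 ≤ X → 1 ≤ H →
    (((Icc 3 X).filter (fun N : ℕ => g N + 2 ≤ N ∧ N ≤ g N + H)).card : ℝ) ≤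
      C * H * (X / Real.log X ^ 2) := by
  obtain ⟨C, hC, h⟩ := Pool.Agent.R105.GD.pairs_le
  obtain ⟨X0, hX0⟩ := eventually_atTop.1 h
  obtain ⟨c, hc, hsm⟩ := small_bound
  refine ⟨(X0 + 2213) / c + C, by positivity, fun X H hX hH => ?_⟩
  have hlog : 0 < Real.log X := Real.log_pos (by exact_mod_cast hX)
  have hY : 0 < (X : ℝ) / Real.log X ^ 2 := by
    have : (0 : ℝ) < X := by exact_mod_cast (by omega : 0 < X)
    positivity
  have hcY := hsm X hX
  have hH' : (1 : ℝ) ≤ H := by exact_mod_cast hH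
  by_cases hXX : X < X0
  · have h1 : (((Icc 3 X).filter (fun N : ℕ => g N + 2 ≤ N ∧ N ≤ g N + H)).card : ℝ) ≤ X0 := by
      have : ((Icc 3 X).filter (fun N : ℕ => g N + 2 ≤ N ∧ N ≤ g N + H)).card ≤ X0 := by
        refine (card_filter_le _ _).trans ?_
        rw [Nat.card_Icc]
        omega
      exact_mod_cast this
    have h2 : (X0 : ℝ) ≤ X0 / c * (X / Real.log X ^ 2) := by
      calc (X0 : ℝ) = X0 / c * c := by field_simp
        _ ≤ X0 / c * (X / Real.log X ^ 2) := mul_le_mul_of_nonneg_left hcY (by positivity)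
    have h3 : X0 / c * (X / Real.log X ^ 2) ≤ ((X0 + 2213) / c + C) * H * (X / Real.log X ^ 2) := by
      apply mul_le_mul_of_nonneg_right _ hY.le
      have h4 : (X0 : ℝ) / c ≤ (X0 + 2213) / c := by
        apply div_le_div_of_nonneg_right _ hc.le
        linarith
      have h5 : (0 : ℝ) ≤ (X0 + 2213) / c := by positivity
      nlinarith
    linarith
  · push Not at hXX
    have hTc := hX0 X hXX H
    have hsub : (Icc 3 X).filter (fun N : ℕ => g N + 2 ≤ N ∧ N ≤ g N + H) ⊆
        range (2208 + 5 * H) ∪ (Icc 2 H).biUnion (fun h => ((Icc 1 X).filter (fun n : ℕ =>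
          Nat.Prime (n + 1) ∧ Nat.Prime (n + 2 * h - 1))).image (fun n => n + h)) := by
      intro N hN
      rw [mem_filter, mem_Icc] at hN
      rw [mem_union, mem_range]
      by_cases hs : N < 2208 + 5 * H
      · exact Or.inl hs
      · right
        push Not at hs
        have hp := Pool.Agent.R105.GD.Gol.gg_primes N (by omega) (by rw [← g_eq]; omega)
        rw [← g_eq] at hp
        rw [mem_biUnion]
        refine ⟨N - g N, by rw [mem_Icc]; omega, ?_⟩
        rw [mem_image]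
        refine ⟨g N, ?_, by omega⟩
        rw [mem_filter, mem_Icc]
        refine ⟨⟨by omega, by omega⟩, hp.1, ?_⟩
        have e : g N + 2 * (N - g N) - 1 = 2 * N - g N - 1 := by omega
        rw [e]
        exact hp.2
    have hcard : (((Icc 3 X).filter (fun N : ℕ => g N + 2 ≤ N ∧ N ≤ g N + H)).card : ℝ) ≤
        (2208 + 5 * H) + ∑ h ∈ Icc 2 H, (((Icc 1 X).filter (fun n : ℕ =>
          Nat.Prime (n + 1) ∧ Nat.Prime (n + 2 * h - 1))).card : ℝ) := by
      have h1 := (card_le_card hsub).trans (card_union_le _ _)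
      have h2 := card_biUnion_le (s := Icc 2 H) (t := fun h => ((Icc 1 X).filter (fun n : ℕ =>
          Nat.Prime (n + 1) ∧ Nat.Prime (n + 2 * h - 1))).image (fun n => n + h))
      have h2' : ∑ h ∈ Icc 2 H, (((Icc 1 X).filter (fun n : ℕ =>
          Nat.Prime (n + 1) ∧ Nat.Prime (n + 2 * h - 1))).image (fun n => n + h)).card ≤
          ∑ h ∈ Icc 2 H, ((Icc 1 X).filter (fun n : ℕ =>
          Nat.Prime (n + 1) ∧ Nat.Prime (n + 2 * h - 1))).card :=
        sum_le_sum fun h _ => card_image_le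
      rw [card_range] at h1
      have h3 : ((Icc 3 X).filter (fun N : ℕ => g N + 2 ≤ N ∧ N ≤ g N + H)).card ≤
        (2208 + 5 * H) + ∑ h ∈ Icc 2 H, ((Icc 1 X).filter (fun n : ℕ =>
          Nat.Prime (n + 1) ∧ Nat.Prime (n + 2 * h - 1))).card := by omega
      exact_mod_cast h3
    have h4 : (2208 + 5 * H : ℝ) ≤ 2213 / c * H * (X / Real.log X ^ 2) := by
      have h5 : (2208 + 5 * H : ℝ) ≤ 2213 * H := by linarith
      have h6 : (2213 * H : ℝ) = 2213 / c * H * c := by field_simp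
      have h7 : 2213 / c * H * c ≤ 2213 / c * H * (X / Real.log X ^ 2) :=
        mul_le_mul_of_nonneg_left hcY (by positivity)
      linarith
    have h10 : (0 : ℝ) ≤ X0 / c * H * (X / Real.log X ^ 2) := by positivity
    have h11 : ((X0 + 2213) / c + C) * H * (X / Real.log X ^ 2) =
        X0 / c * H * (X / Real.log X ^ 2) + 2213 / c * H * (X / Real.log X ^ 2)
          + C * H * (X / Real.log X ^ 2) := by ring
    rw [h11]
    linarith

open Classical in
/-- (1) There is a constant `C` such that for all `X ≥ 2`, `H ≥ 1` at most `C H X / (log X)^2` of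
the `N ≤ X` satisfy `2 ≤ N - g_N ≤ H`. (2) Hence for every function `ψ` tending to infinity one has
`N - g_N > (log N)^2 / ψ(N)` for almost all `N`. -/
theorem result :
    (∃ C : ℝ, 0 < C ∧ ∀ X H : ℕ, 2 ≤ X → 1 ≤ H →
      (((Icc 3 X).filter (fun N : ℕ => g N + 2 ≤ N ∧ N ≤ g N + H)).card : ℝ) ≤
        C * H * (X / Real.log X ^ 2)) ∧
    (∀ ψ : ℕ → ℝ, Tendsto ψ atTop atTop →
      Tendsto (fun X : ℕ => (((Icc 3 X).filter
        (fun N : ℕ => (N : ℝ) - g N ≤ Real.log N ^ 2 / ψ N)).card : ℝ) / X) atTop (𝓝 0)) := by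
  refine ⟨count_le, fun ψ hψ => ?_⟩
  obtain ⟨C, hC, hcount⟩ := count_le
  obtain ⟨D, hD, hprimes⟩ := Pool.Agent.R105.GD.primes_le
  obtain ⟨P1, hP1⟩ := eventually_atTop.1 hprimes
  rw [Metric.tendsto_atTop]
  intro ε hε
  -- choose K
  obtain ⟨K, hK1, hK2⟩ : ∃ K : ℝ, 1 ≤ K ∧ C / K ≤ ε / 8 := by
    refine ⟨max 1 (8 * C / ε), le_max_left _ _, ?_⟩
    have h1 : 0 < max 1 (8 * C / ε) := lt_of_lt_of_le one_pos (le_max_left _ _)
    rw [div_le_iff₀ h1]
    have h2 : 8 * C / ε ≤ max 1 (8 * C / ε) := le_max_right _ _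
    have h3 : ε / 8 * (8 * C / ε) = C := by field_simp
    nlinarith [mul_le_mul_of_nonneg_left h2 (by positivity : 0 ≤ ε / 8)]
  obtain ⟨N1, hN1⟩ := eventually_atTop.1 (hψ.eventually_ge_atTop K)
  have hl1 : Tendsto (fun X : ℕ => Real.log X) atTop atTop :=
    Real.tendsto_log_atTop.comp tendsto_natCast_atTop_atTop
  have hl3 : Tendsto (fun X : ℕ => Real.log X ^ 2) atTop atTop :=
    (tendsto_pow_atTop (by norm_num)).comp hl1
  have hA := hl3.eventually_ge_atTop (8 * C * 1 / ε + 1)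
  have hA2 := hl1.eventually_ge_atTop (8 * D / ε + 1)
  have hB := (tendsto_natCast_atTop_atTop (R := ℝ)).eventually_ge_atTop (8 * N1 / ε + 4)
  obtain ⟨X1, hX1⟩ := eventually_atTop.1 (hA.and (hB.and hA2))
  refine ⟨max (max X1 P1) 2, fun X hX => ?_⟩
  obtain ⟨hL, hXb, hL1⟩ := hX1 X (le_trans (le_trans (le_max_left _ _) (le_max_left _ _)) hX)
  have hP := hP1 X (le_trans (le_trans (le_max_right _ _) (le_max_left _ _)) hX)
  have hX2 : 2 ≤ X := le_trans (le_max_right _ _) hX
  have hXpos : (0 : ℝ) < X := by exact_mod_cast (by omega : 0 < X)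
  have hlog : 0 < Real.log X := Real.log_pos (by exact_mod_cast hX2)
  have hL3 : 0 < Real.log X ^ 2 := by positivity
  rw [dist_zero_right, Real.norm_of_nonneg (by positivity)]
  set H : ℕ := ⌊Real.log X ^ 2 / K⌋₊ + 1 with hH
  have hsub : (Icc 3 X).filter (fun N : ℕ => (N : ℝ) - g N ≤ Real.log N ^ 2 / ψ N) ⊆
      (range N1 ∪ (Icc 1 X).filter (fun n : ℕ => Nat.Prime n)) ∪
        (Icc 3 X).filter (fun N : ℕ => g N + 2 ≤ N ∧ N ≤ g N + H) := by
    intro N hN
    rw [mem_filter] at hN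
    rw [mem_union, mem_union, mem_range, mem_filter, mem_filter]
    by_cases hs : N < N1
    · exact Or.inl (Or.inl hs)
    · have h6 := (mem_Icc.1 hN.1)
      by_cases hNp : N.Prime
      · exact Or.inl (Or.inr ⟨by rw [mem_Icc]; omega, hNp⟩)
      right
      push Not at hs
      refine ⟨hN.1, ?_, ?_⟩
      · have h7 := Pool.Agent.R105.GD.Gol.defect_comp N h6.1 hNp
        rw [← g_eq] at h7
        have h8 := (Nat.minFac_prime (show N ≠ 1 by omega)).two_le
        omega
      · have hNpos : (1 : ℝ) ≤ N := by exact_mod_cast (by omega : 1 ≤ N)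
        have h1 : Real.log N ^ 2 / ψ N ≤ Real.log X ^ 2 / K := by
          have h2 : 0 ≤ Real.log N := Real.log_nonneg hNpos
          have h3 : Real.log N ≤ Real.log X :=
            Real.log_le_log (by linarith) (by exact_mod_cast h6.2)
          exact div_le_div₀ (by positivity) (pow_le_pow_left₀ h2 h3 2) (by linarith) (hN1 N hs)
        have h4 := (hN.2.trans h1).trans (Nat.lt_floor_add_one _).le
        have h5 : ((N : ℕ) : ℝ) ≤ ((g N + H : ℕ) : ℝ) := by
          rw [hH]; push_cast; linarith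
        exact_mod_cast h5
  have hc1 : (((Icc 3 X).filter (fun N : ℕ => (N : ℝ) - g N ≤ Real.log N ^ 2 / ψ N)).card : ℝ) ≤
      N1 + D * (X / Real.log X) + C * H * (X / Real.log X ^ 2) := by
    have h1 := (card_le_card hsub).trans ((card_union_le _ _).trans
      (Nat.add_le_add_right (card_union_le _ _) _))
    rw [card_range] at h1
    have h2 := hcount X H hX2 (by omega)
    have h3 : (((Icc 3 X).filter (fun N : ℕ => (N : ℝ) - g N ≤ Real.log N ^ 2 / ψ N)).card : ℝ) ≤
      N1 + (((Icc 1 X).filter (fun n : ℕ => Nat.Prime n)).card : ℝ) +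
        (((Icc 3 X).filter (fun N : ℕ => g N + 2 ≤ N ∧ N ≤ g N + H)).card : ℝ) := by exact_mod_cast h1
    linarith
  have hHle : (H : ℝ) ≤ Real.log X ^ 2 / K + 1 := by
    rw [hH]; push_cast
    linarith [Nat.floor_le (show 0 ≤ Real.log X ^ 2 / K by positivity)]
  have hc2 : C * H * (X / Real.log X ^ 2) ≤ C / K * X + C * X / Real.log X ^ 2 := by
    have h1 : C * H * (X / Real.log X ^ 2) ≤ C * (Real.log X ^ 2 / K + 1) * (X / Real.log X ^ 2) := by
      apply mul_le_mul_of_nonneg_right _ (by positivity)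
      exact mul_le_mul_of_nonneg_left hHle hC.le
    have h2 : C * (Real.log X ^ 2 / K + 1) * (X / Real.log X ^ 2) = C / K * X + C * X / Real.log X ^ 2 := by
      field_simp
    linarith
  have hc3 : C * X / Real.log X ^ 2 ≤ ε / 8 * X := by
    rw [div_le_iff₀ hL3]
    have h1 : C ≤ ε / 8 * Real.log X ^ 2 := by
      have h2 : 8 * C * 1 / ε ≤ Real.log X ^ 2 := by linarith
      rw [div_le_iff₀ hε] at h2
      linarith
    nlinarith
  have hc4 : (N1 : ℝ) ≤ ε / 8 * X := by
    have h2 : 8 * N1 / ε ≤ (X : ℝ) := by linarith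
    rw [div_le_iff₀ hε] at h2
    linarith
  have hc6 : D * (X / Real.log X) ≤ ε / 8 * X := by
    have e : D * (X / Real.log X) = D * X / Real.log X := by ring
    rw [e, div_le_iff₀ hlog]
    have h1 : D ≤ ε / 8 * Real.log X := by
      have h2 : 8 * D / ε ≤ Real.log X := by linarith
      rw [div_le_iff₀ hε] at h2
      linarith
    nlinarith
  rw [div_lt_iff₀ hXpos]
  have hc5 : C / K * X ≤ ε / 8 * X := mul_le_mul_of_nonneg_right hK2 hXpos.le
  have : 0 < ε * X := by positivity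
  linarith

end Pool.Agent.Results.MP_b5e119_nt.TypicalDefect
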